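import Pool.Agent.H92.KST.Targets

/-!
# Project KEW, block (e), STAR: Lemma 1
-/

set_option autoImplicit false
set_option linter.unusedSectionVars false

universe u

open Pool.Agent.H92.KST

namespace Pool.Agent.H10.KST

section ring

variable {R F : Type u} [CommRing R] [IsDomain R] [Field F] [Algebra R F]

theorem inL_add {T : Set (Ideal R)} (hT : ∀ q ∈ T, q.IsPrime) {f g : F} (hf : InL T f)
    (hg : InL T g) : InL T (f + g) := by
  obtain ⟨s, r, hs, hsq, h⟩ := hf
  obtain ⟨s', r', hs', hsq', h'⟩ := hg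
  refine ⟨s * s', s' * r + s * r', mul_ne_zero hs hs', fun q hq hm => ?_, ?_⟩
  · rcases (hT q hq).mem_or_mem hm with h1 | h1
    · exact hsq q hq h1
    · exact hsq' q hq h1
  · rw [map_mul, map_add, map_mul, map_mul, ← h, ← h']
    ring

theorem inL_mul {T : Set (Ideal R)} (hT : ∀ q ∈ T, q.IsPrime) {f g : F} (hf : InL T f)
    (hg : InL T g) : InL T (f * g) := by
  obtain ⟨s, r, hs, hsq, h⟩ := hf
  obtain ⟨s', r', hs', hsq', h'⟩ := hg
  refine ⟨s * s', r * r', mul_ne_zero hs hs', fun q hq hm => ?_, ?_⟩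
  · rcases (hT q hq).mem_or_mem hm with h1 | h1
    · exact hsq q hq h1
    · exact hsq' q hq h1
  · rw [map_mul, map_mul, ← h, ← h']
    ring

theorem inL_of {T : Set (Ideal R)} (hT : ∀ q ∈ T, q.IsPrime) (r : R) :
    InL T (algebraMap R F r) :=
  ⟨1, r, one_ne_zero, fun q hq h => (hT q hq).ne_top ((Ideal.eq_top_iff_one q).mpr h), by
    rw [map_one, one_mul]⟩

theorem inL_neg {T : Set (Ideal R)} {f : F} (hf : InL T f) : InL T (-f) := by
  obtain ⟨s, r, hs, hsq, h⟩ := hf
  exact ⟨s, -r, hs, hsq, by rw [map_neg, ← h]; ring⟩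

theorem inJ_mono {T : Set (Ideal R)} {k l : ℕ} (hkl : k ≤ l) {d : F} (h : InJ T l d) :
    InJ T k d := by
  obtain ⟨s, r, hs, hsq, hr, h⟩ := h
  exact ⟨s, r, hs, hsq, Ideal.pow_le_pow_right hkl hr, h⟩

variable [IsFractionRing R F]

theorem aM_ne {r : R} (hr : r ≠ 0) : algebraMap R F r ≠ 0 :=
  (map_ne_zero_iff _ (IsFractionRing.injective R F)).mpr hr

theorem inL_div {T : Set (Ideal R)} (a b : R) (hb : b ≠ 0) (h : ∀ q ∈ T, b ∉ q) :
    InL T (algebraMap R F a / algebraMap R F b) :=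
  ⟨b, a, hb, h, mul_div_cancel₀ _ (aM_ne hb)⟩

/-- `1 + p ^ m d` is a unit at the points -/
theorem unit_one_add (S : Sit R) (y : S.Y) {m : ℕ} (hm : 1 ≤ m) {d : F} (hd : InL (S.T y) d) :
    1 + algebraMap R F S.p ^ m * d ≠ 0 ∧
      InL (S.T y) (1 + algebraMap R F S.p ^ m * d)⁻¹ := by
  obtain ⟨s, r, hs, hsq, h⟩ := hd
  obtain ⟨q, hq⟩ := S.ne y
  have hv : ∀ q ∈ S.T y, s + S.p ^ m * r ∉ q := by
    intro q hq hmem
    apply hsq q hq
    have h2 : S.p ^ m * r ∈ q :=
      q.mul_mem_right _ (Ideal.pow_mem_of_mem q (S.mem y q hq) m (by omega))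
    exact (Ideal.add_mem_iff_left q h2).mp hmem
  have hv0 : s + S.p ^ m * r ≠ 0 := fun h0 => hv q hq (h0 ▸ q.zero_mem)
  have e1 : algebraMap R F s * (1 + algebraMap R F S.p ^ m * d) =
      algebraMap R F (s + S.p ^ m * r) := by
    rw [map_add, map_mul, map_pow, ← h]
    ring
  have hne : 1 + algebraMap R F S.p ^ m * d ≠ 0 := by
    intro h0
    rw [h0, mul_zero] at e1
    exact aM_ne (F := F) hv0 e1.symm
  refine ⟨hne, s + S.p ^ m * r, s, hv0, hv, ?_⟩
  rw [← e1, mul_assoc, mul_inv_cancel₀ hne, mul_one]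

end ring

section symb

variable {F M : Type u} [Field F] [AddCommGroup M] (σ : Symb F M)

theorem s_one_left {c : F} (hc : c ≠ 0) : σ.s 1 c = 0 := by
  have h := σ.mul_left 1 1 c one_ne_zero one_ne_zero hc
  rw [mul_one] at h
  exact left_eq_add.mp h

theorem s_one_right {c : F} (hc : c ≠ 0) : σ.s c 1 = 0 := by
  have h := σ.mul_right c 1 1 hc one_ne_zero one_ne_zero
  rw [mul_one] at h
  exact left_eq_add.mp h

theorem s_inv_left {a c : F} (ha : a ≠ 0) (hc : c ≠ 0) : σ.s a⁻¹ c = -σ.s a c := by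
  have h := σ.mul_left a a⁻¹ c ha (inv_ne_zero ha) hc
  rw [mul_inv_cancel₀ ha, s_one_left σ hc] at h
  exact (neg_eq_of_add_eq_zero_right h.symm).symm

theorem s_inv_right {a c : F} (ha : a ≠ 0) (hc : c ≠ 0) : σ.s c a⁻¹ = -σ.s c a := by
  have h := σ.mul_right c a a⁻¹ hc ha (inv_ne_zero ha)
  rw [mul_inv_cancel₀ ha, s_one_right σ hc] at h
  exact (neg_eq_of_add_eq_zero_right h.symm).symm

theorem s_neg_self {a : F} (ha : a ≠ 0) : σ.s a (-a) = 0 := by
  by_cases h1 : a = 1
  · rw [h1, s_one_left σ (neg_ne_zero.mpr one_ne_zero)]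
  have h2 : 1 - a ≠ 0 := sub_ne_zero.mpr (Ne.symm h1)
  have h3 : 1 - a⁻¹ ≠ 0 := by
    rw [sub_ne_zero]
    intro h
    apply h1
    rw [← inv_inv a, ← h, inv_one]
  have h4 : -a = (1 - a) * (1 - a⁻¹)⁻¹ := by
    rw [eq_mul_inv_iff_mul_eq₀ h3]
    field_simp
    ring
  rw [h4, σ.mul_right a _ _ ha h2 (inv_ne_zero h3), s_inv_right σ h3 ha,
    σ.st a (1 - a) ha h2 (by ring), ← s_inv_left σ ha h3,
    σ.st a⁻¹ (1 - a⁻¹) (inv_ne_zero ha) h3 (by ring), add_zero]

theorem s_anti {a b : F} (ha : a ≠ 0) (hb : b ≠ 0) : σ.s a b = -σ.s b a := by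
  have h1 := s_neg_self σ (mul_ne_zero ha hb)
  rw [σ.mul_left a b _ ha hb (neg_ne_zero.mpr (mul_ne_zero ha hb))] at h1
  have h2 : σ.s a (-(a * b)) = σ.s a b := by
    rw [← neg_mul, σ.mul_right a (-a) b ha (neg_ne_zero.mpr ha) hb, s_neg_self σ ha, zero_add]
  have h3 : σ.s b (-(a * b)) = σ.s b a := by
    rw [← mul_neg, σ.mul_right b a (-b) hb ha (neg_ne_zero.mpr hb), s_neg_self σ hb, add_zero]
  rw [h2, h3] at h1
  exact eq_neg_of_add_eq_zero_left h1

theorem s_pow_left {a c : F} (ha : a ≠ 0) (hc : c ≠ 0) (m : ℕ) : σ.s (a ^ m) c = m • σ.s a c := by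
  induction m with
  | zero => rw [pow_zero, s_one_left σ hc, zero_smul]
  | succ m ih => rw [pow_succ, σ.mul_left _ _ _ (pow_ne_zero _ ha) ha hc, ih, succ_nsmul]

/-- the basic identity -/
theorem s_mul_id {A B : F} (hA : A ≠ 0) (h1A : 1 + A ≠ 0) (h1B : 1 + B ≠ 0)
    (hz : 1 - A * B ≠ 0) : σ.s (1 + A) (1 + B) =
      -σ.s (1 - A * B) (1 + A) + σ.s (1 - A * B) (-A * (1 + B)) -
        σ.s (1 - A * B) (1 - A * B) := by
  have hy : -A * (1 + B) ≠ 0 := mul_ne_zero (neg_ne_zero.mpr hA) h1B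
  have h1 : σ.s (1 + A) (-A * (1 + B)) = σ.s (1 + A) (1 + B) := by
    rw [σ.mul_right _ _ _ h1A (neg_ne_zero.mpr hA) h1B,
      s_anti σ h1A (neg_ne_zero.mpr hA), σ.st (-A) (1 + A) (neg_ne_zero.mpr hA) h1A (by ring),
      neg_zero, zero_add]
  have h2 := σ.st ((1 + A) * (1 - A * B)⁻¹) ((-A * (1 + B)) * (1 - A * B)⁻¹)
    (mul_ne_zero h1A (inv_ne_zero hz)) (mul_ne_zero hy (inv_ne_zero hz)) (by
      rw [← add_mul, mul_inv_eq_one₀ hz]
      ring)
  rw [σ.mul_left _ _ _ h1A (inv_ne_zero hz) (mul_ne_zero hy (inv_ne_zero hz)),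
    σ.mul_right _ _ _ h1A hy (inv_ne_zero hz), σ.mul_right _ _ _ (inv_ne_zero hz) hy
    (inv_ne_zero hz), s_inv_left σ hz hy, s_inv_left σ hz (inv_ne_zero hz), s_inv_right σ hz hz,
    s_inv_right σ hz h1A, h1, s_anti σ h1A hz] at h2
  rw [neg_neg, neg_neg] at h2
  have h3 : σ.s (1 + A) (1 + B) - (-σ.s (1 - A * B) (1 + A) +
      σ.s (1 - A * B) (-A * (1 + B)) - σ.s (1 - A * B) (1 - A * B)) = 0 := by
    rw [← h2]
    abel
  exact sub_eq_zero.mp h3

end symb

section small

variable {R F M : Type u} [CommRing R] [IsDomain R] [Field F] [Algebra R F] [IsFractionRing R F]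
  [AddCommGroup M]

theorem mem_U_left (S : Sit R) (σ : Symb F M) {T : Set (Ideal R)} {a g : F} (ha : InL T a)
    (hg : g ≠ 0) (h : 1 + algebraMap R F S.p ^ (S.n + 1) * a ≠ 0) :
    σ.s (1 + algebraMap R F S.p ^ (S.n + 1) * a) g ∈ U S σ T :=
  AddSubgroup.subset_closure ⟨a, g, ha, hg, h, rfl⟩

theorem mem_U_right (S : Sit R) (σ : Symb F M) {T : Set (Ideal R)} {a g : F} (ha : InL T a)
    (hg : g ≠ 0) (h : 1 + algebraMap R F S.p ^ (S.n + 1) * a ≠ 0) :
    σ.s g (1 + algebraMap R F S.p ^ (S.n + 1) * a) ∈ U S σ T := by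
  rw [s_anti σ hg h]
  exact neg_mem (mem_U_left S σ ha hg h)

/-- the exponent `n` is enough -/
theorem mem_U_root (S : Sit R) (σ : Symb F M) {q : ℕ} (hq : ∀ m : M, q • m = 0)
    (hroot : Root F S q) (y : S.Y) {c g : F} (hc : InL (S.T y) c) (hg : g ≠ 0) :
    σ.s (1 + algebraMap R F S.p ^ S.n * c) g ∈ U S σ (S.T y) := by
  obtain ⟨b, a', hb, ha', h⟩ := hroot y c hc
  have h1 := (unit_one_add S y (Nat.le_add_left 1 S.n) ha').1
  rw [h, σ.mul_left _ _ _ (pow_ne_zero _ hb) h1 hg, s_pow_left σ hb hg, hq, zero_add]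
  exact mem_U_left S σ ha' hg h1

/-- symbols of elements whose product of small parts is small -/
theorem mem_U_mul_root (S : Sit R) (σ : Symb F M) {q : ℕ} (hq : ∀ m : M, q • m = 0)
    (hroot : Root F S q) (y : S.Y) {A B c : F} (hc : InL (S.T y) c)
    (hAB : A * B = algebraMap R F S.p ^ S.n * c) (h1A : 1 + A ≠ 0) (h1B : 1 + B ≠ 0) :
    σ.s (1 + A) (1 + B) ∈ U S σ (S.T y) := by
  by_cases hA : A = 0
  · rw [hA, add_zero, s_one_left σ h1B]
    exact zero_mem _
  have hz : 1 - A * B = 1 + algebraMap R F S.p ^ S.n * (-c) := by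
    rw [hAB]
    ring
  have hz0 : 1 - A * B ≠ 0 := by
    rw [hz]
    exact (unit_one_add S y S.n1 (inL_neg hc)).1
  rw [s_mul_id σ hA h1A h1B hz0]
  have key : ∀ g : F, g ≠ 0 → σ.s (1 - A * B) g ∈ U S σ (S.T y) := by
    intro g hg
    rw [hz]
    exact mem_U_root S σ hq hroot y (inL_neg hc) hg
  exact sub_mem (add_mem (neg_mem (key _ h1A)) (key _ (mul_ne_zero (neg_ne_zero.mpr hA) h1B)))
    (key _ hz0)

end small

theorem pf_LE1 (hRAD : T_RAD.{u}) (hHAR : T_HAR.{u}) (hFIN : T_FIN.{u}) (hCRT : T_CRT.{u})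
    (hMV1 : T_MV1.{u}) : T_LE1.{u} := by
  intro R F M _ _ _ _ _ _ _ _ S σ q hq hroot y a b g hb hbS hg hgH hgS hu
  classical
  have hpr := S.pr y
  have hp0 : algebraMap R F S.p ≠ 0 := aM_ne S.p0
  have hb' : algebraMap R F b ≠ 0 := aM_ne hb
  have hg' : algebraMap R F g ≠ 0 := aM_ne hg
  -- the power of the radical
  obtain ⟨k₀, t, ht, htq, hrad⟩ := hRAD R (S.T y) (S.fin y) (S.ne y) hpr
    (Ideal.span {b, S.p ^ (S.n + 2)}) (sInf (S.T y)) (by
      intro P hP hPT
      obtain ⟨q', hq', hPq⟩ := hPT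
      have hPp : P.IsPrime := hP.1.1
      have hIP : Ideal.span {b, S.p ^ (S.n + 2)} ≤ P := hP.1.2
      have hpP : S.p ∈ P := by
        apply hPp.mem_of_pow_mem (S.n + 2)
        exact hIP (Ideal.subset_span (by simp))
      have hbP : b ∈ P := hIP (Ideal.subset_span (by simp))
      have hPq' : P = q' := by
        by_contra hne
        have hlt : P < q' := lt_of_le_of_ne hPq hne
        have h1 : P.height < q'.height := Ideal.height_strict_mono_of_isPrime hlt
        rw [S.ht y q' hq'] at h1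
        have h2 : P.height ≠ 0 := by
          rw [Ne, Ideal.height_eq_zero_iff_eq_bot]
          intro h0
          rw [h0, Ideal.mem_bot] at hpP
          exact S.p0 hpP
        have h3 : P.height = 1 := by
          obtain ⟨m, hm⟩ := ENat.ne_top_iff_exists.mp (ne_top_of_lt h1)
          rw [← hm] at h1 h2 ⊢
          have h4 : m < 2 := by exact_mod_cast h1
          have h5 : m ≠ 0 := by exact_mod_cast h2
          have h6 : m = 1 := by omega
          rw [h6]
          rfl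
        exact hbS P ⟨hPp, h3, hpP⟩ hbP
      rw [hPq']
      exact sInf_le hq')
  -- the finite set of points
  obtain ⟨-, -, hfin⟩ := hFIN R F
  obtain ⟨-, hfinE, -⟩ := hfin S
  have hE : ({y' | ∃ q ∈ S.T y', b ∈ q} ∪ {y} : Set S.Y).Finite :=
    (hfinE b hb hbS).union (Set.finite_singleton y)
  choose κ hκ using fun y' : S.Y => hMV1 R F M S σ y' b hb (fun e he _ => hbS e he)
  obtain ⟨k, hk₀, hk⟩ : ∃ k, k₀ ≤ k ∧
      ∀ y' ∈ ({y' | ∃ q ∈ S.T y', b ∈ q} ∪ {y} : Set S.Y), κ y' ≤ k := by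
    refine ⟨max k₀ (hE.toFinset.sup κ), le_max_left _ _, fun y' hy' => ?_⟩
    exact le_trans (Finset.le_sup (f := κ) (hE.mem_toFinset.mpr hy')) (le_max_right _ _)
  obtain ⟨f, hf0, -, hf⟩ := hCRT R F S _ hE
    (fun y' => if y' = y then algebraMap R F g else 1) (by
      intro y' _
      split_ifs with h
      · rw [h]
        exact inL_of hpr g
      · have := inL_of (F := F) (S.pr y') (1 : R)
        rwa [map_one] at this) k
  refine ⟨σ.s (1 + algebraMap R F S.p ^ (S.n + 1) * (algebraMap R F a / algebraMap R F b)) f,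
    mem_U_left S σ (inL_div a b hb hbS) hf0 hu, ?_, ?_⟩
  · -- the point `y`
    have hfy := hf y (Or.inr rfl)
    rw [if_pos rfl] at hfy
    obtain ⟨s, r, hs, hsq, hr, hsr⟩ := hfy
    have hr' := hrad r (Ideal.pow_le_pow_right hk₀ hr)
    rw [Ideal.mem_span_pair] at hr'
    obtain ⟨x₁, x₂, hx⟩ := hr'
    have hs' : algebraMap R F s ≠ 0 := aM_ne hs
    have ht' : algebraMap R F t ≠ 0 := aM_ne ht
    have htsq : ∀ q ∈ S.T y, t * s ∉ q := by
      intro q hq hm
      rcases (hpr q hq).mem_or_mem hm with h | h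
      · exact htq q hq h
      · exact hsq q hq h
    have hts' : algebraMap R F (t * s) ≠ 0 := aM_ne (mul_ne_zero ht hs)
    have hd1 : InL (S.T y) (algebraMap R F x₁ / algebraMap R F (t * s)) :=
      inL_div x₁ (t * s) (mul_ne_zero ht hs) htsq
    have hd2 : InL (S.T y) (algebraMap R F x₂ / algebraMap R F (t * s)) :=
      inL_div x₂ (t * s) (mul_ne_zero ht hs) htsq
    have hd : f - algebraMap R F g =
        algebraMap R F b * (algebraMap R F x₁ / algebraMap R F (t * s)) +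
        algebraMap R F S.p ^ (S.n + 2) * (algebraMap R F x₂ / algebraMap R F (t * s)) := by
      have h1 := congrArg (algebraMap R F) hx
      rw [map_add, map_mul, map_mul, map_mul, map_pow, ← hsr] at h1
      have h2 : algebraMap R F (t * s) * (f - algebraMap R F g) = algebraMap R F (t * s) *
        (algebraMap R F b * (algebraMap R F x₁ / algebraMap R F (t * s)) +
        algebraMap R F S.p ^ (S.n + 2) * (algebraMap R F x₂ / algebraMap R F (t * s))) := by
        rw [mul_add, mul_left_comm, mul_div_cancel₀ _ hts', mul_left_comm (algebraMap R F (t * s)),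
          mul_div_cancel₀ _ hts', map_mul, mul_assoc, ← h1]
        ring
      exact mul_left_cancel₀ hts' h2
    have hpg : InL (S.T y) (algebraMap R F S.p / algebraMap R F g) := by
      apply hHAR R F (S.T y) (S.fin y) (S.ne y) hpr
      intro P hP hP1 hPT
      by_cases hpP : S.p ∈ P
      · exact hgS P ⟨hP, hP1, hpP⟩
      · apply inL_div S.p g hg
        intro q hq
        rw [Set.mem_singleton_iff.mp hq]
        exact hgH P ⟨hP, hP1, hpP⟩ hPT
    generalize algebraMap R F x₁ / algebraMap R F (t * s) = d₁ at hd hd1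
    generalize algebraMap R F x₂ / algebraMap R F (t * s) = d₂ at hd hd2
    have hdd : InL (S.T y) (algebraMap R F S.p / algebraMap R F g * d₂) := inL_mul hpr hpg hd2
    obtain ⟨hw, hwi⟩ := unit_one_add S y (Nat.le_add_left 1 S.n) hdd
    set w := 1 + algebraMap R F S.p ^ (S.n + 1) *
      (algebraMap R F S.p / algebraMap R F g * d₂) with hwdef
    set B := algebraMap R F b * d₁ / (algebraMap R F g * w) with hB
    have hfg : f / algebraMap R F g = w * (1 + B) := by
      have h1 : w * B = algebraMap R F b * d₁ / algebraMap R F g := by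
        rw [hB]
        field_simp
      rw [mul_add, mul_one, h1, hwdef, div_eq_iff hg']
      have h2 : f = algebraMap R F g + (f - algebraMap R F g) := by ring
      rw [h2, hd]
      field_simp
      ring
    have hfg0 : f / algebraMap R F g ≠ 0 := div_ne_zero hf0 hg'
    have h1B : 1 + B ≠ 0 := by
      intro h0
      rw [h0, mul_zero] at hfg
      exact hfg0 hfg
    have hsplit : ∀ c : F, c ≠ 0 → σ.s c f - σ.s c (algebraMap R F g) =
        σ.s c w + σ.s c (1 + B) := by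
      intro c hc
      have h1 : f = algebraMap R F g * (f / algebraMap R F g) := (mul_div_cancel₀ f hg').symm
      have h2 : σ.s c f = σ.s c (algebraMap R F g) + σ.s c (f / algebraMap R F g) := by
        conv_lhs => rw [h1]
        exact σ.mul_right c _ _ hc hg' hfg0
      rw [h2, hfg, σ.mul_right c w _ hc hw h1B]
      abel
    rw [hsplit _ hu]
    refine add_mem (mem_U_right S σ hdd hu hw) ?_
    apply mem_U_mul_root S σ hq hroot y
      (c := algebraMap R F a * d₁ * (algebraMap R F S.p / algebraMap R F g) * w⁻¹)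
      (inL_mul hpr (inL_mul hpr (inL_mul hpr (inL_of hpr a) hd1) hpg) hwi) ?_ hu h1B
    rw [hB]
    field_simp
    ring
  · -- the other points
    intro y' hy'
    by_cases hyE : y' ∈ ({y' | ∃ q ∈ S.T y', b ∈ q} ∪ {y} : Set S.Y)
    · have h1 := hf y' hyE
      rw [if_neg hy'] at h1
      exact hκ y' a f hf0 (inJ_mono (hk y' hyE) h1) hu
    · apply mem_U_left S σ (inL_div a b hb ?_) hf0 hu
      intro q hq hbq
      exact hyE (Or.inl ⟨q, hq, hbq⟩)

end Pool.Agent.H10.KST
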