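import Pool.Agent.H92.KST.TargetsX

/-!
# Project KEW, block (k): heights in an integral extension of a normal domain
-/

set_option autoImplicit false

universe u

open Pool.Agent.H92.KST

namespace Pool.Agent.H10.KST

theorem pf_NA3 : T_NA3.{u} := by
  intro P C _ _ _ _ _ _ hinj hint Q hQ
  have hf : FaithfulSMul P C := (faithfulSMul_iff_algebraMap_injective P C).mpr hinj
  have hgd : Algebra.HasGoingDown P C := inferInstance
  have hq : (Q.comap (algebraMap P C)).IsPrime := Ideal.IsPrime.comap _
  have h1 : Q.height = Order.height (⟨Q, hQ⟩ : PrimeSpectrum C) :=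
    PrimeSpectrum.height_eq_orderHeight ⟨Q, hQ⟩
  have h2 : (Q.comap (algebraMap P C)).height =
      Order.height (⟨Q.comap (algebraMap P C), hq⟩ : PrimeSpectrum P) :=
    PrimeSpectrum.height_eq_orderHeight ⟨Q.comap (algebraMap P C), hq⟩
  rw [h1, h2]
  apply le_antisymm
  · have hmono : StrictMono (PrimeSpectrum.comap (algebraMap P C)) := by
      intro I J hIJ
      have h3 : I.asIdeal < J.asIdeal := hIJ
      exact Ideal.IsIntegral.comap_lt_comap h3
    exact Order.height_le_height_apply_of_strictMono _ hmono _
  · apply Order.height_le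
    intro l hl
    have hlo : Q.LiesOver l.last.asIdeal := by
      rw [hl]
      exact ⟨rfl⟩
    obtain ⟨L, hL, hlast, -⟩ := Ideal.exists_ltSeries_of_hasGoingDown l Q
    rw [← hL]
    exact Order.length_le_height (le_of_eq hlast)

end Pool.Agent.H10.KST
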