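import Pool.Agent.H92.KST.TargetsX
import Pool.Agent.H92.KST.Basic
import Pool.Agent.H19.KN.Targets

/-!
# Project KEW, block (e): STAR for Milnor K-groups
-/

set_option autoImplicit false

universe u

open Pool.Agent.H92.KST Pool.Agent.H62.MK Pool.Agent.H19.KN

namespace Pool.Agent.H10.KST

section

variable {F : Type u} [Field F] {O : Subring F} {π : F} {q E n m : ℕ}

/-- the elements for which there is a solution -/
def solSub (q : ℕ) (π : F) (n m : ℕ) (Y1 Y2 : Set (Ideal O)) (y0 : Ideal O)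
    (Oy : Ideal O → Subring F) : AddSubgroup (MilnorK F (m + 2)) where
  carrier := {c | ∃ c' : MilnorK F (m + 2),
    (∀ y ∈ Y1, c' ∈ USub q π n (icl (Oy y) F) (m + 2)) ∧
    c' - c ∈ USub q π n (icl (Oy y0) F) (m + 2) ∧
    ∀ y ∈ Y2, y ≠ y0 → c' ∈ USub q π n (icl (Oy y) F) (m + 2)}
  zero_mem' := ⟨0, fun _ _ => zero_mem _, by rw [sub_zero]; exact zero_mem _,
    fun _ _ _ => zero_mem _⟩
  add_mem' := by
    rintro a b ⟨a', h1, h2, h3⟩ ⟨b', h1', h2', h3'⟩
    refine ⟨a' + b', fun y hy => add_mem (h1 y hy) (h1' y hy), ?_,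
      fun y hy hne => add_mem (h3 y hy hne) (h3' y hy hne)⟩
    rw [add_sub_add_comm]
    exact add_mem h2 h2'
  neg_mem' := by
    rintro a ⟨a', h1, h2, h3⟩
    refine ⟨-a', fun y hy => neg_mem (h1 y hy), ?_, fun y hy hne => neg_mem (h3 y hy hne)⟩
    rw [← neg_sub']
    exact neg_mem h2

theorem pi_mem_iff {S : Sit (integralClosure O F)}
    (hSp : algebraMap (integralClosure O F) F S.p = π) {Q : Ideal (integralClosure O F)}
    (h : π ∈ O) : S.p ∈ Q ↔ (⟨π, h⟩ : O) ∈ Q.comap (algebraMap O (integralClosure O F)) := by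
  have e : algebraMap O (integralClosure O F) ⟨π, h⟩ = S.p := by
    apply Subtype.ext
    exact hSp.symm
  rw [Ideal.mem_comap, e]

end

theorem pf_STARX (hSTAR : T_STAR.{u}) (hROOT : Pool.Agent.H19.KN.T_ROOT.{u})
    (hWA2 : Pool.Agent.H19.KN.T_WA2.{u}) (hUMEM : Pool.Agent.H19.KN.T_UMEM.{u})
    (hGENF : T_GENF.{u}) (hLOCX : T_LOCX.{u}) (hGOODG : T_GOODG.{u}) (hAPPG : T_APPG.{u})
    (hSITX : T_SITX.{u}) (hSYMX : T_SYMX.{u}) : T_STARX.{u} := by
  intro F _ O π q E n hPt hn Oy hLoc m y0 hy0 c hc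
  classical
  obtain ⟨hfin, -, hht2, hht1, -⟩ := hGENF F O π q E hPt
  obtain ⟨hgood0, hgood1⟩ := hGOODG F O π q E hPt Oy hLoc
  obtain ⟨hfr, hic, S, hSp, hSn, e, hST⟩ := hSITX F O π q E hPt (n - 1) (by omega)
  have := hfr
  have := hic
  have := hPt.noethR
  have hn1 : S.n + 1 = n := by omega
  -- the generic points below `y0`
  set G0 : Set (Ideal O) := {y | y ∈ YO O π 1 ∧ y ≤ y0} with hG0
  have hG0fin : G0.Finite := hfin.subset fun y hy => hy.1
  have hG0ne : G0.Nonempty := by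
    obtain ⟨hy0p, ⟨hπO, hπy⟩, Q, ⟨hQp, hQy⟩, hQh⟩ := hy0
    have hpQ : S.p ∈ Q := by
      rw [pi_mem_iff hSp hπO, hQy]
      exact hπy
    obtain ⟨P, hP, hPQ⟩ := Ideal.exists_minimalPrimes_le (I := Ideal.span {S.p}) (J := Q)
      ((Ideal.span_singleton_le_iff_mem Q).mpr hpQ)
    have hPp : P.IsPrime := hP.1.1
    have hpP : S.p ∈ P := hP.1.2 (Ideal.mem_span_singleton_self _)
    have hP1 : P.height ≤ 1 := Ideal.height_le_one_of_isPrincipal_of_mem_minimalPrimes _ _ hP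
    have hP0 : P.height ≠ 0 := by
      rw [Ne, Ideal.height_eq_zero_iff_eq_bot]
      intro h0
      rw [h0, Ideal.mem_bot] at hpP
      exact S.p0 hpP
    have hP1' : P.height = 1 := le_antisymm hP1 (Order.one_le_iff_ne_zero.mpr hP0)
    refine ⟨P.comap (algebraMap O (integralClosure O F)), ⟨Ideal.IsPrime.comap _, ⟨hπO, ?_⟩, P,
      ⟨hPp, rfl⟩, hP1'⟩, ?_⟩
    · rw [← pi_mem_iff hSp hπO]
      exact hpP
    · rw [← hQy]
      exact Ideal.comap_mono hPQ
  have hG0fin' : Finite G0 := hG0fin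
  obtain ⟨k, ⟨eG⟩⟩ := Finite.exists_equiv_fin G0
  have hk : Nonempty (Fin k) := by
    obtain ⟨y, hy⟩ := hG0ne
    exact ⟨eG ⟨y, hy⟩⟩
  set f : Fin k → Ideal O := fun i => (eG.symm i).1 with hf
  have hfmem : ∀ i, f i ∈ G0 := fun i => (eG.symm i).2
  have hfinj : Function.Injective f := fun i j h => eG.symm.injective (Subtype.ext h)
  have hfsurj : ∀ y ∈ G0, ∃ i, f i = y := fun y hy => ⟨eG ⟨y, hy⟩, by
    rw [hf]
    simp only [Equiv.symm_apply_apply]⟩
  have happ := hAPPG F O π q E hPt Oy hLoc (Fin k) f hfinj fun i => (hfmem i).1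
  have hcW := hWA2 F π q E (Fin k) (fun i => icl (Oy (f i)) F)
    (fun i => (hgood1 (f i) (hfmem i).1).1) happ n (by omega) (m + 2) c
    (fun i => hc (f i) (hfmem i).1 (hfmem i).2) hk
  -- the subgroup of the elements with a solution
  suffices hmain : USub q π n (⨅ i, icl (Oy (f i)) F) (m + 2) ≤
      solSub q π n m (YO O π 1) (YO O π 2) y0 Oy from hmain hcW
  have hq0 : ∀ (T : Subring F) (x : MilnorK F (m + 2)), q • x ∈ USub q π n T (m + 2) :=
    fun T x => (hUMEM F T π q n).2.2.1 (m + 2) x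
  -- reduction to symbols
  suffices hsym : ∀ u ∈ Small π n (⨅ i, icl (Oy (f i)) F), ∀ (g : Fˣ) (w : MilnorK F m),
      cup u (cup g w) ∈ solSub q π n m (YO O π 1) (YO O π 2) y0 Oy by
    unfold USub
    rw [AddSubgroup.closure_le]
    rintro z (⟨x, rfl⟩ | ⟨u, hu, y, rfl⟩)
    · exact ⟨0, fun _ _ => zero_mem _, by rw [zero_sub]; exact neg_mem (hq0 _ x),
        fun _ _ _ => zero_mem _⟩
    · refine MilnorK.induction (p := fun y => cup u y ∈
        solSub q π n m (YO O π 1) (YO O π 2) y0 Oy) y ?_ ?_ ?_ ?_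
      · rw [map_zero]
        exact zero_mem _
      · intro a
        rw [← Fin.cons_self_tail a, sym_cons]
        exact hsym u hu (a 0) _
      · intro x hx
        rw [map_neg]
        exact neg_mem hx
      · intro x x' hx hx'
        rw [map_add]
        exact add_mem hx hx'
  intro u hu g w
  obtain ⟨α, hα, huα⟩ := hu
  obtain ⟨σ, hσ⟩ := hSYMX F q m w
  have hqM : ∀ x : MilnorK F (m + 2) ⧸ (zsmulAddGroupHom (q : ℤ) :
      MilnorK F (m + 2) →+ MilnorK F (m + 2)).range, q • x = 0 := by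
    intro x
    obtain ⟨x, rfl⟩ := QuotientAddGroup.mk_surjective x
    rw [← QuotientAddGroup.mk_nsmul, QuotientAddGroup.eq_zero_iff]
    exact ⟨x, by rw [zsmulAddGroupHom_apply, natCast_zsmul]⟩
  have hpy : ∀ y : S.Y, ∃ h : π ∈ O, (⟨π, h⟩ : O) ∈ (e y).1 := fun y => (e y).2.2.1
  have hyp : ∀ y : S.Y, (e y).1.IsPrime := fun y => (e y).2.1
  have hRoot : Root F S q := by
    intro y a ha
    rw [hST] at ha
    have ha' := (hLOCX F O π q E hPt Oy hLoc (e y).1 (hyp y) a).mpr ha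
    have hg0 := hgood0 (e y).1 (hyp y) (hpy y)
    have hne : 1 + π ^ (n - 1) * a ≠ 0 := by
      rw [← hST] at ha
      have h1 := one_add_ne (F := F) (T := S.T y) (p := S.p) (f := a) (k := n - 1)
        (S.ne y) (S.pr y) (S.mem y) ha (by omega)
      rwa [hSp] at h1
    obtain ⟨v, u', hu', hv⟩ := hROOT F (icl (Oy (e y).1) F) π q E hg0 hPt.q1 (n - 1) (by omega)
      (Units.mk0 _ hne) ⟨a, ha', rfl⟩ n
    obtain ⟨a', ha1, ha2⟩ := hu'
    refine ⟨v, a', v.ne_zero, ?_, ?_⟩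
    · rw [hST]
      exact (hLOCX F O π q E hPt Oy hLoc (e y).1 (hyp y) a').mp ha1
    · have h2 := congrArg (fun z : Fˣ => (z : F)) hv
      simp only [Units.val_mk0, Units.val_mul, Units.val_pow_eq_pow_val] at h2
      rw [hSp, hn1, hSn, h2, ha2]
  have hlift := hSTAR (integralClosure O F) F _ S σ q hqM hRoot (e.symm ⟨y0, hy0⟩) α (g : F)
    (by
      rintro e' ⟨he'p, he'h, he'S⟩ ⟨Q, hQ, he'Q⟩
      rw [hST, Equiv.apply_symm_apply] at hQ
      obtain ⟨hy0p, ⟨hπO, hπy⟩, -⟩ := id hy0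
      have hy1 : e'.comap (algebraMap O (integralClosure O F)) ∈ G0 := by
        refine ⟨⟨Ideal.IsPrime.comap _, ⟨hπO, ?_⟩, e', ⟨he'p, rfl⟩, he'h⟩, ?_⟩
        · rw [← pi_mem_iff hSp hπO]
          exact he'S
        · have h3 : Q.comap (algebraMap O (integralClosure O F)) = y0 := hQ.2
          rw [← h3]
          exact Ideal.comap_mono he'Q
      obtain ⟨i, hi⟩ := hfsurj _ hy1
      have h1 : α ∈ icl (Oy (f i)) F := by
        rw [Subring.mem_iInf] at hα
        exact hα i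
      rw [hi] at h1
      have h2 := (hLOCX F O π q E hPt Oy hLoc _ (Ideal.IsPrime.comap _) α).mp h1
      exact h2.single ⟨he'p, rfl⟩)
    (by
      rw [hSp, hn1, ← huα]
      exact u.ne_zero) g.ne_zero
  rw [hSp, hn1, ← huα, hσ] at hlift
  obtain ⟨a, haS, hay0, hay⟩ := hlift
  obtain ⟨c', rfl⟩ := QuotientAddGroup.mk_surjective a
  -- representatives
  have hrep : ∀ (y : Ideal O) (T : Set (Ideal (integralClosure O F))), y.IsPrime →
      Over O y ⊆ T → ∀ z : MilnorK F (m + 2), QuotientAddGroup.mk z ∈ U S σ T →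
      z ∈ USub q π n (icl (Oy y) F) (m + 2) := by
    intro y T hy hT z hz
    have h1 : U S σ T ≤ (USub q π n (icl (Oy y) F) (m + 2)).map (QuotientAddGroup.mk'
        (zsmulAddGroupHom (q : ℤ) : MilnorK F (m + 2) →+ MilnorK F (m + 2)).range) := by
      unfold U
      rw [AddSubgroup.closure_le]
      rintro x ⟨a, g', ha, hg', hne, rfl⟩
      refine ⟨cup (Units.mk0 _ hne) (cup (Units.mk0 g' hg') w), ?_, ?_⟩
      · apply (hUMEM F (icl (Oy y) F) π q n).2.1
        refine ⟨a, ?_, ?_⟩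
        · exact (hLOCX F O π q E hPt Oy hLoc y hy a).mpr (ha.mono_subset hT)
        · rw [Units.val_mk0, hSp, hn1]
      · rw [QuotientAddGroup.mk'_apply, ← hσ, Units.val_mk0, Units.val_mk0]
    obtain ⟨z', hz', hzz⟩ := h1 hz
    rw [QuotientAddGroup.mk'_apply, QuotientAddGroup.eq] at hzz
    obtain ⟨x, hx⟩ := hzz
    have h2 : z = z' + q • x := by
      rw [zsmulAddGroupHom_apply, natCast_zsmul] at hx
      rw [hx]
      abel
    rw [h2]
    exact add_mem hz' (hq0 _ x)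
  refine ⟨c', ?_, ?_, ?_⟩
  · intro y hy
    apply hrep y S.Sig hy.1 ?_ c' haS
    intro Q hQ
    obtain ⟨hyp, ⟨hπO, hπy⟩, -⟩ := id hy
    refine ⟨hQ.1, hht1 y hy Q hQ, ?_⟩
    rw [pi_mem_iff hSp hπO, hQ.2]
    exact hπy
  · apply hrep y0 (S.T (e.symm ⟨y0, hy0⟩)) hy0.1
    · rw [hST, Equiv.apply_symm_apply]
    · rw [QuotientAddGroup.mk_sub]
      exact hay0
  · intro y hy hne
    apply hrep y (S.T (e.symm ⟨y, hy⟩)) hy.1
    · rw [hST, Equiv.apply_symm_apply]
    · apply hay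
      intro h
      have h1 := e.symm.injective h
      exact hne (congrArg Subtype.val h1)

end Pool.Agent.H10.KST
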